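import Pool.Agent.TRH.Fin
import Pool.Agent.TRG.FinA
import Pool.Agent.ISO.Sha

/-! [DEN-N10] good curves over `L(√-7)` and sets of good primes -/

set_option autoImplicit false

open NumberField IsDedekindDomain
open scoped Classical

namespace TRN

open TRB XTB

section
variable {L M : Type} [Field L] [NumberField L] [Field M] [NumberField M] [Algebra L M]
  [IsTotallyReal L]

theorem n10_good (D : TR.Dat L M) {P : HeightOneSpectrum (𝓞 M)} (h2P : (2 : 𝓞 M) ∉ P.asIdeal)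
    (h7P : (7 : 𝓞 M) ∉ P.asIdeal) (hg : GoodPrime P) : TRG.Good P := by
  refine ⟨h2P, ?_⟩
  have hc : TR.c7 (Ideal.absNorm P.asIdeal) = 1 := by
    refine (f4_residue P h2P h7P).1 ⟨D.rr, ?_⟩
    have h1 : D.rr ^ 2 - (-7) = 0 := by rw [D.rr_sq]; ring
    rw [h1]
    exact Ideal.zero_mem _
  have hn : ¬ (Ideal.absNorm P.asIdeal % 7 = 3 ∨ Ideal.absNorm P.asIdeal % 7 = 5 ∨
      Ideal.absNorm P.asIdeal % 7 = 6) := by
    intro h
    have h1 := XTR.c7_neg h
    rw [hc] at h1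
    norm_num at h1
  intro u
  have h3 : ∃ x : 𝓞 M, x ^ 2 - (u : 𝓞 M) ∈ P.asIdeal := by
    rcases hg with h | h | h | h
    · exact absurd (Or.inl h) hn
    · exact absurd (Or.inr (Or.inl h)) hn
    · exact absurd (Or.inr (Or.inr h)) hn
    · exact h u
  unfold TT.qr
  rw [if_neg, if_pos h3]
  intro hu
  exact P.isPrime.ne_top (Ideal.eq_top_of_isUnit_mem _ hu u.isUnit)

theorem n10_rr (D : TR.Dat L M) {P : HeightOneSpectrum (𝓞 M)} (h7P : (7 : 𝓞 M) ∉ P.asIdeal) :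
    D.rr ∉ P.asIdeal := fun h => h7P ((TTS.n1_rr_iff D P).2 h)

end

section
variable {K : Type} [Field K] [NumberField K]

/-- the product of generators -/
theorem n10_prod {S : Finset (HeightOneSpectrum (𝓞 K))} {p : HeightOneSpectrum (𝓞 K) → 𝓞 K}
    (hgen : ∀ P ∈ S, TRG.GenP P (p P)) :
    (∃ t c : 𝓞 K, TRH.dl S p = t ^ 2 + 4 * c) ∧ TRH.dl S p ≠ 0 ∧
      (∀ P ∈ S, ¬ IsSquare (P.valuation K ((TRH.dl S p : 𝓞 K) : K))) ∧
      (∀ P ∉ S, TRH.dl S p ∉ P.asIdeal) ∧ ∀ P ∉ S, TU.Ur P ((TRH.dl S p : 𝓞 K) : K) := by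
  have h1 : ∀ T : Finset (HeightOneSpectrum (𝓞 K)), T ⊆ S →
      (∃ t c : 𝓞 K, TRH.dl T p = t ^ 2 + 4 * c) ∧ TRH.dl T p ≠ 0 ∧
      (∀ P ∈ T, ¬ IsSquare (P.valuation K ((TRH.dl T p : 𝓞 K) : K))) ∧
      (∀ P ∉ T, TRH.dl T p ∉ P.asIdeal) := by
    intro T
    induction T using Finset.induction_on with
    | empty =>
      intro _
      have h0 : TRH.dl (∅ : Finset (HeightOneSpectrum (𝓞 K))) p = 1 := by
        unfold TRH.dl
        rw [Finset.prod_empty]
      rw [h0]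
      refine ⟨⟨1, 0, by ring⟩, one_ne_zero, ?_, ?_⟩
      · intro P hP
        exact absurd hP (Finset.notMem_empty P)
      · intro P _ h
        exact P.isPrime.ne_top ((Ideal.eq_top_iff_one _).2 h)
    | insert Q T hQT ih =>
      intro hT
      obtain ⟨⟨t, c, htc⟩, h2, h3, h4⟩ := ih (fun P hP => hT (Finset.mem_insert_of_mem hP))
      have hQ : Q ∈ S := hT (Finset.mem_insert_self Q T)
      have h0 : TRH.dl (insert Q T) p = p Q * TRH.dl T p := by
        unfold TRH.dl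
        rw [Finset.prod_insert hQT]
      obtain ⟨g1, g2, g3⟩ := (hgen Q hQ).val
      obtain ⟨t', c', htc'⟩ := (hgen Q hQ).sq
      have hco : ((TRH.dl (insert Q T) p : 𝓞 K) : K) = (p Q : K) * ((TRH.dl T p : 𝓞 K) : K) := by
        rw [h0]
        exact map_mul (algebraMap (𝓞 K) K) _ _
      refine ⟨⟨t' * t, t' ^ 2 * c + t ^ 2 * c' + 4 * c' * c, ?_⟩, ?_, ?_, ?_⟩
      · rw [h0, htc, htc']
        ring
      · rw [h0]
        exact mul_ne_zero g1 h2
      · intro P hP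
        rw [hco, map_mul]
        by_cases hPQ : P = Q
        · subst hPQ
          have h5 : P.valuation K ((TRH.dl T p : 𝓞 K) : K) = 1 :=
            (P.valuation_eq_one_iff_notMem (K := K)).2 (h4 P hQT)
          rw [h5, mul_one]
          exact g2
        · rw [(g3 P hPQ).2, one_mul]
          exact h3 P ((Finset.mem_insert.1 hP).resolve_left hPQ)
      · intro P hP h
        rw [Finset.mem_insert, not_or] at hP
        rw [h0] at h
        rcases P.isPrime.mem_or_mem h with h5 | h5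
        · exact (g3 P hP.1).1 h5
        · exact h4 P hP.2 h5
  obtain ⟨⟨t, c, htc⟩, h2, h3, h4⟩ := h1 S (fun _ h => h)
  refine ⟨⟨t, c, htc⟩, h2, h3, h4, fun P hP => ⟨1, t, c, one_ne_zero, ?_, ?_⟩⟩
  · rw [← htc]
    ring
  · rw [← htc]
    exact h4 P hP

end

section
variable {L : Type} [Field L] [NumberField L] (hL : IsTotallyReal L)
  (h7 : (Ideal.span {(7 : 𝓞 L)}).IsPrime) {M : Type} [Field M] [NumberField M] [Algebra L M]
  (hM : Module.finrank L M = 2) (hr : ∃ r : M, r ^ 2 = -7) (hodd : Odd (classNumber M))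
include hL h7 hM hr hodd

/-- [DEN-N10a] PROOF. `TRG.exists_genP` for `P ∈ S` (GoodPrime + `2, 7 ∉ P` gives `TRG.Good`, see the proof of `mod_two_sqrt`); `d = dl S p = ∏ p P` is
`t² + 4 c`; `E = XTS.twist t c` is a good curve (`XTB.twist_good`, helper80), it is a twist `Wd d`/`Ws d`; it has bad reduction at `P ∈ S` since the valuation of `d` at `P` is odd
(or: by `TRH.exists_form` `E` has the form of the set `S'` of its bad primes, the two elements differ by a square, so the valuations have the same parity and `S = S'`). -/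
theorem exists_curve {S : Finset (HeightOneSpectrum (𝓞 M))}
    (hS : ∀ P ∈ S, (2 : 𝓞 M) ∉ P.asIdeal ∧ (7 : 𝓞 M) ∉ P.asIdeal ∧ GoodPrime P) :
    ∃ E : WeierstrassCurve M, GoodCurve E ∧
      ∀ P, P ∈ S ↔ (7 : 𝓞 M) ∉ P.asIdeal ∧ ¬ XTS.GoodReduction E P := by
  obtain ⟨D0⟩ := Real7.dat h7 hM hr
  obtain ⟨D, hD⟩ : ∃ D : TR.Dat L M, D = D0.toTR hodd := ⟨_, rfl⟩
  have hgood : ∀ P ∈ S, TRG.Good P := fun P hP => n10_good D (hS P hP).1 (hS P hP).2.1 (hS P hP).2.2
  have hex : ∀ P ∈ S, ∃ q : 𝓞 M, TRG.GenP P q := fun P hP =>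
    TRG.exists_genP D (hgood P hP) (n10_rr D (hS P hP).2.1)
  choose! p hp using hex
  obtain ⟨⟨t, c, htc⟩, hne, hodd', hnot, hur⟩ := n10_prod hp
  have hmem : ∀ P : HeightOneSpectrum (𝓞 M), t ^ 2 + 4 * c ∈ P.asIdeal → P ∈ S := by
    intro P hP
    by_contra hn
    exact hnot P hn (htc ▸ hP)
  have hW : XTS.twist t c = TT.Wc (t : M) (c : M) := rfl
  obtain ⟨C2, hC2, -⟩ := TTS.Wc_eq_Ws (t : M) (c : M)
  have hco : ((TRH.dl S p : 𝓞 M) : M) = (t : M) ^ 2 + 4 * (c : M) := by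
    rw [htc]
    change algebraMap (𝓞 M) M (t ^ 2 + 4 * c) = _
    rw [map_add, map_pow, map_mul, map_ofNat]
  obtain ⟨C3, hC3⟩ := TTS.Wd_eq_Ws ((TRH.dl S p : 𝓞 M) : M)
  have hE1 : XTS.twist t c = C2 • TTS.Ws ((TRH.dl S p : 𝓞 M) : M) := by
    rw [hW, hC2, hco]
  have hE2 : XTS.twist t c = (C2 * C3⁻¹) • TU.Wd ((TRH.dl S p : 𝓞 M) : M) := by
    rw [hE1, hC3, mul_smul, inv_smul_smul]
  refine ⟨XTS.twist t c, twist_good t c (htc ▸ hne) (fun P hP => (hS P (hmem P hP)).1)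
    (fun P hP => Or.inr (hS P (hmem P hP)).2.2), fun P => ⟨fun hP => ⟨(hS P hP).2.1, ?_⟩, ?_⟩⟩
  · intro h
    apply hodd' P hP
    refine TU.Ur.val (TU.ur_of_good (hS P hP).2.1 (RingOfIntegers.coe_ne_zero_iff.2 hne)
      (C := C2 * C3⁻¹) ?_)
    rw [← hE2]
    exact h
  · rintro ⟨h7P, hbad⟩
    by_contra hn
    apply hbad
    rw [hE1]
    exact TRH.h2_good h7P (hur P hn) C2

/-- [DEN-N10b] PROOF. `TRH.exists_form` for both: `E = C • Ws (dl S p)`, `E' = C' • Ws (dl S p')`; `p P`, `p' P` generate odd powers of `P` and are squares modulo `4`, so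
`p P ^ k' = u p' P ^ k` with a unit `u` which is a square modulo `4` (at the primes above `2`), hence a square (`TRH`/`TRG`: units which are squares modulo `4` are squares), so
`dl S p` and `dl S p'` differ by a square (`k, k'` odd) and `Ws_scale`. -/
theorem iso_of_bad {E E' : WeierstrassCurve M} (hE : GoodCurve E) (hE' : GoodCurve E')
    (h : ∀ P : HeightOneSpectrum (𝓞 M), (7 : 𝓞 M) ∉ P.asIdeal →
      (XTS.GoodReduction E P ↔ XTS.GoodReduction E' P)) :
    ∃ C : WeierstrassCurve.VariableChange M, E' = C • E := by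
  obtain ⟨D0⟩ := Real7.dat h7 hM hr
  obtain ⟨D, hD⟩ : ∃ D : TR.Dat L M, D = D0.toTR hodd := ⟨_, rfl⟩
  have hform : ∀ E : WeierstrassCurve M, GoodCurve E →
      ∃ (S : Finset (HeightOneSpectrum (𝓞 M))) (X : HeightOneSpectrum (𝓞 M) → (Ideal (𝓞 M) →*₀ ℤ))
      (p : HeightOneSpectrum (𝓞 M) → 𝓞 M) (C : WeierstrassCurve.VariableChange M),
      TRH.HG D S X p ∧ (∀ P, P ∈ S ↔ (7 : 𝓞 M) ∉ P.asIdeal ∧ ¬ XTS.GoodReduction E P) ∧
      E = C • TTS.Ws ((TRH.dl S p : 𝓞 M) : M) := by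
    intro E hE
    obtain ⟨hell, hj⟩ := hE.j_eq
    obtain ⟨S, X, p, C, -, G, hS, h1, -⟩ := TRH.exists_form D E hj (fun P hP => hE.two P hP)
      (fun P h7P hP => (n10_good D (fun h2 => hP (hE.two P h2)) h7P
        ((hE.good P h7P).resolve_left hP)).unit)
    exact ⟨S, X, p, C, G, hS, h1⟩
  obtain ⟨S, X, p, C, G, hS, h1⟩ := hform E hE
  obtain ⟨S', X', p', C', G', hS', h1'⟩ := hform E' hE'
  have hSS : S' = S := by
    ext P
    rw [hS, hS']
    refine and_congr_right fun h7P => ?_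
    rw [h P h7P]
  subst hSS
  obtain ⟨-, hne, hodd', -, hur⟩ := n10_prod G'.gen
  obtain ⟨y, hy0, hy⟩ := TRH.h2_form D (RingOfIntegers.coe_ne_zero_iff.2 hne) G.gs.good G.gs.seven
    G.gen hodd' (fun P hP _ => hur P hP)
  have hdl : ((TRH.dl S' p : 𝓞 M) : M) = ∏ P ∈ S', (p P : M) := by
    change algebraMap (𝓞 M) M (∏ P ∈ S', p P) = _
    rw [map_prod]
  obtain ⟨C1, hC1, -⟩ := TTS.Ws_scale (d := ((TRH.dl S' p : 𝓞 M) : M)) hy0
  refine ⟨C' * C1 * C⁻¹, ?_⟩
  rw [h1, mul_smul, inv_smul_smul, mul_smul, ← hC1, hdl, mul_comm (y ^ 2), ← hy]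
  exact h1'

end

section
variable {K : Type} [Field K] [NumberField K]

/-- [DEN-N10c] invariance under isomorphisms -/
theorem good_smul (C : WeierstrassCurve.VariableChange K) (E : WeierstrassCurve K) (P : HeightOneSpectrum (𝓞 K)) :
    XTS.GoodReduction (C • E) P ↔ XTS.GoodReduction E P := by
  constructor
  · rintro ⟨C', h⟩
    rw [← mul_smul] at h
    exact ⟨C' * C, h⟩
  · rintro ⟨C', h⟩
    refine ⟨C' * C⁻¹, ?_⟩
    rw [mul_smul, inv_smul_smul]
    exact h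

theorem goodCurve_smul (C : WeierstrassCurve.VariableChange K) {E : WeierstrassCurve K} (hE : GoodCurve E) :
    GoodCurve (C • E) := by
  obtain ⟨hell, hj⟩ := hE.j_eq
  refine ⟨⟨inferInstance, ?_⟩, fun P hP => (good_smul C E P).2 (hE.two P hP), fun P hP => ?_⟩
  · rw [WeierstrassCurve.variableChange_j]
    exact hj
  · exact (hE.good P hP).imp_left (good_smul C E P).2

theorem finiteSha_smul (C : WeierstrassCurve.VariableChange K) {E : WeierstrassCurve K} (hE : FiniteSha E) :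
    FiniteSha (C • E) := by
  obtain ⟨h1, h2⟩ := hE
  exact ⟨Finite.of_equiv _ (VC63.vcEquiv E C).symm.toEquiv, (ISO.sha_smul E C 2).2 h2⟩

end

end TRN
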