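import Pool.Agent.TRN.N7
import Pool.Agent.TRN.NU
import Pool.Agent.TRG.S4

/-! [DEN-N11b1] many good primes -/

set_option autoImplicit false

open NumberField Ideal IsDedekindDomain Filter Topology
open scoped Classical Nat

namespace TRN

open TR

section
variable {L M : Type} [Field L] [NumberField L] [Field M] [NumberField M] [Algebra L M]
  [IsTotallyReal L] (D : Dat L M)

/-- the good primes of `M` which do not contain `7`, of norm at most `N`, with given symbol of `√-7` -/
noncomputable def gpr (ε : ZMod 2) (N : ℕ) : Finset (HeightOneSpectrum (𝓞 M)) :=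
  (prb M N).filter fun P => TRG.Good P ∧ D.rr ∉ P.asIdeal ∧ TRG.bM D P = ε

/-- a product of `√-7` and a unit is no square -/
theorem n11_rr_unit (v : 𝓞 M) (hv : IsUnit v) : ¬ IsSquare ((D.rr * v : 𝓞 M) : M) := by
  have hrr0 : D.rr ≠ 0 := TTS.n1_rr_ne D
  let P0 : HeightOneSpectrum (𝓞 M) := ⟨span {D.rr}, D.span_rr_prime, by
    rw [Ne, Ideal.span_singleton_eq_bot]; exact hrr0⟩
  have hmem0 : D.rr ∈ P0.asIdeal := Ideal.mem_span_singleton_self _
  have hr1 : ¬ IsSquare (P0.valuation M D.r) := by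
    rw [(TTS.val_seven D hmem0).1, TTS.s8d_sq_iff WithZero.exp_ne_zero, WithZero.log_exp]
    decide
  rintro ⟨x, hx⟩
  apply hr1
  have h1 : P0.valuation M (v : M) = 1 := by
    rw [TU.g1_val_one]
    intro h
    exact P0.isPrime.ne_top (Ideal.eq_top_of_isUnit_mem _ h hv)
  have h2 : P0.valuation M ((D.rr * v : 𝓞 M) : M) = P0.valuation M D.r := by
    rw [TU.g1_mul, map_mul, h1, mul_one, TTS.n1_coe_rr]
  rw [← h2, hx, map_mul]
  exact ⟨_, rfl⟩

/-- [DEN-N11b1] many good primes. PROOF. `many_primes` with the units of `exists_unit_basis` (`ε = 1`) and `D.rr` (`ε = ±1`); independence: `D.rr` has odd valuation at the prime above `7`, units have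
valuation `0` (`D.rr ^ 2 = -7`, `span {D.rr}` is prime: `D.span_rr_prime`), so a product with `D.rr` is no square; the exceptional set `B`: the primes which contain `14`. If all `u_i` are squares
modulo `P` then all units are (`TT.qr_mul`, `TT.qr_sq`), i.e. `Good P`. -/
theorem many_good (ε : ZMod 2) {η : ℝ} (hη : 0 < η) :
    ∃ N0 : ℕ, ∀ N : ℕ, N0 ≤ N → (N : ℝ) ^ (1 - η) ≤ ((gpr D ε N).card : ℝ) := by
  obtain ⟨k, u, hu1, hu2⟩ := exists_unit_basis M
  have h14 : (14 : 𝓞 M) ≠ 0 := by norm_num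
  obtain ⟨a, ha0, ha⟩ : ∃ a : Option (Fin k) → 𝓞 M, a none = D.rr ∧ ∀ i, a (some i) = (u i : 𝓞 M) :=
    ⟨fun o => o.elim D.rr fun i => (u i : 𝓞 M), rfl, fun _ => rfl⟩
  obtain ⟨e, he0, he⟩ : ∃ e : Option (Fin k) → ℤ, e none = (if ε = 0 then 1 else -1) ∧
      ∀ i, e (some i) = 1 :=
    ⟨fun o => o.elim (if ε = 0 then 1 else -1) fun _ => 1, rfl, fun _ => rfl⟩
  have hind : ∀ s : Finset (Option (Fin k)), s.Nonempty → ¬ IsSquare ((∏ i ∈ s, a i : 𝓞 M) : M) := by
    intro s hs
    have hsub : ∀ t : Finset (Option (Fin k)), none ∉ t →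
        ∃ t' : Finset (Fin k), (t.Nonempty → t'.Nonempty) ∧ ∏ i ∈ t, a i = ∏ i ∈ t', (u i : 𝓞 M) := by
      intro t ht
      refine ⟨t.eraseNone, ?_, ?_⟩
      · rintro ⟨o, ho⟩
        cases o with
        | none => exact absurd ho ht
        | some i => exact ⟨i, Finset.mem_eraseNone.2 ho⟩
      · have e1 : t = t.eraseNone.image some := by
          ext o
          rw [Finset.mem_image]
          constructor
          · intro ho
            cases o with
            | none => exact absurd ho ht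
            | some i => exact ⟨i, Finset.mem_eraseNone.2 ho, rfl⟩
          · rintro ⟨i, hi, rfl⟩
            exact Finset.mem_eraseNone.1 hi
        conv_lhs => rw [e1]
        rw [Finset.prod_image (fun i _ j _ h => Option.some_injective _ h)]
        exact Finset.prod_congr rfl fun i _ => ha i
    by_cases hn : none ∈ s
    · obtain ⟨t', -, ht'⟩ := hsub (s.erase none) (Finset.notMem_erase _ _)
      rw [← Finset.mul_prod_erase s a hn, ha0, ht']
      refine n11_rr_unit D _ ?_
      rw [← Units.coe_prod]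
      exact Units.isUnit _
    · obtain ⟨t', ht1, ht'⟩ := hsub s hn
      rw [ht']
      exact hu1 t' (ht1 hs)
  have hε : ∀ i, e i = 1 ∨ e i = -1 := by
    intro o
    cases o with
    | none =>
      rw [he0]
      split_ifs
      · exact Or.inl rfl
      · exact Or.inr rfl
    | some i => exact Or.inl (he i)
  obtain ⟨N0, hN0⟩ := many_primes M a hind e hε (n7_fin M h14).toFinset hη
  refine ⟨N0, fun N hN => (hN0 N hN).trans ?_⟩
  refine Nat.cast_le.2 (Finset.card_le_card ?_)
  intro P hP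
  rw [Finset.mem_filter] at hP
  obtain ⟨hPN, hPB, hPe⟩ := hP
  have hPB' : (14 : 𝓞 M) ∉ P.asIdeal := by
    intro h
    apply hPB
    rw [Set.Finite.mem_toFinset]
    exact h
  have h2 : (2 : 𝓞 M) ∉ P.asIdeal := by
    intro h
    apply hPB'
    have e1 : (14 : 𝓞 M) = 7 * 2 := by norm_num
    rw [e1]
    exact P.asIdeal.mul_mem_left _ h
  have h7 : (7 : 𝓞 M) ∉ P.asIdeal := by
    intro h
    apply hPB'
    have e1 : (14 : 𝓞 M) = 2 * 7 := by norm_num
    rw [e1]
    exact P.asIdeal.mul_mem_left _ h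
  unfold gpr
  rw [Finset.mem_filter]
  refine ⟨hPN, ⟨h2, ?_⟩, fun h => h7 ((TTS.n1_rr_iff D P).2 h), ?_⟩
  · intro v
    obtain ⟨s, w, rfl⟩ := hu2 v
    have hw : (w : 𝓞 M) ∉ P.asIdeal := fun h => P.isPrime.ne_top (Ideal.eq_top_of_isUnit_mem _ h w.isUnit)
    rw [Units.val_mul, Units.val_pow_eq_pow_val, Units.coe_prod, TT.qr_mul P h2, TT.qr_sq P hw, one_mul,
      n7_qr_prod M h2]
    refine Finset.prod_eq_one fun i _ => ?_
    have h3 := hPe (some i)
    rwa [ha, he] at h3
  · have h3 := hPe none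
    rw [ha0, he0] at h3
    unfold TRG.bM
    rw [h3]
    by_cases hε0 : ε = 0
    · rw [if_pos hε0, if_neg (by norm_num), hε0]
    · rw [if_neg hε0, if_pos rfl]
      have : ∀ x : ZMod 2, x ≠ 0 → (1 : ZMod 2) = x := by decide
      exact this ε hε0

end

end TRN
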