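import Pool.Agent.TRN.N12b
import Pool.Agent.TRN.N11c
import Pool.Agent.TRG.GOOD
import Pool.Agent.TRG.R6
import Pool.Agent.TRG.LM3
import Pool.Agent.TRG.S0

/-! [DEN-N11b] the mean value over the sets of good primes -/

set_option autoImplicit false

open NumberField Ideal IsDedekindDomain Filter Topology
open scoped Classical Nat

namespace TRN

open TR

/-- sets with `a` elements of label `0` and `b` elements of label `1` -/
theorem split_card {P : Type} {g0 g1 : Finset P} {rho : P → ZMod 2} (h0 : ∀ p ∈ g0, rho p = 0)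
    (h1 : ∀ p ∈ g1, rho p = 1) {S : Finset P} (hS : S ⊆ g0 ∪ g1) (a b : ℕ) :
    ((S ∩ g0).card = a ∧ (S ∩ g1).card = b) ↔ S.card = a + b ∧ (S.filter fun p => rho p = 1).card = b := by
  have h2 : S ∩ g1 = S.filter fun p => rho p = 1 := by
    ext p
    rw [Finset.mem_inter, Finset.mem_filter]
    refine and_congr_right fun hp => ⟨h1 p, fun h => ?_⟩
    rcases Finset.mem_union.1 (hS hp) with h3 | h3
    · rw [h0 p h3] at h
      exact absurd h (by decide)
    · exact h3
  have h3 : S ∩ g0 = S.filter fun p => ¬ rho p = 1 := by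
    ext p
    rw [Finset.mem_inter, Finset.mem_filter]
    refine and_congr_right fun hp => ⟨fun h => ?_, fun h => ?_⟩
    · rw [h0 p h]
      decide
    · rcases Finset.mem_union.1 (hS hp) with h3 | h3
      · exact h3
      · exact absurd (h1 p h3) h
  have h4 := Finset.card_filter_add_card_filter_not (s := S) fun p => rho p = 1
  rw [h2, h3]
  omega

section
variable {L M : Type} [Field L] [NumberField L] [Field M] [NumberField M] [Algebra L M]
  [IsTotallyReal L] (D : Dat L M)

/-- [DEN-N11b''] the density of the sets of good primes whose graph has an odd number of spanning trees -/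
theorem mean_sets {p : HeightOneSpectrum (𝓞 M) → 𝓞 M} (hp : ∀ P, TRG.Good P → D.rr ∉ P.asIdeal → TRG.GenP P (p P))
    (a : ℕ) {b : ℕ} (hb : 0 < b) :
    Tendsto (fun N : ℕ =>
      ((((gpr D 0 N ∪ gpr D 1 N).powerset.filter fun S => (S ∩ gpr D 0 N).card = a ∧ (S ∩ gpr D 1 N).card = b ∧
        Pool.Agent.TRG.f (TRG.aM p) (TRG.bM D) S ≠ 0).card : ℝ) /
      (((gpr D 0 N ∪ gpr D 1 N).powerset.filter fun S => (S ∩ gpr D 0 N).card = a ∧ (S ∩ gpr D 1 N).card = b).card : ℝ)))
      atTop (𝓝 (sn (a + b - if Even b then 2 else 1))) := by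
  have : IsTotallyComplex M := D.isTotallyComplex
  have hg : ∀ (c : ZMod 2) (N : ℕ) (P : HeightOneSpectrum (𝓞 M)), P ∈ gpr D c N →
      absNorm P.asIdeal ≤ N ∧ TRG.Good P ∧ D.rr ∉ P.asIdeal ∧ TRG.bM D P = c := by
    intro c N P hP
    unfold gpr at hP
    rw [Finset.mem_filter, mem_prb] at hP
    exact hP
  set G : ℕ → Finset (HeightOneSpectrum (𝓞 M)) := fun N => gpr D 0 N ∪ gpr D 1 N with hG
  have hGm : ∀ (N : ℕ) (P : HeightOneSpectrum (𝓞 M)), P ∈ G N →
      absNorm P.asIdeal ≤ N ∧ TRG.Good P ∧ D.rr ∉ P.asIdeal := by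
    intro N P hP
    rw [hG] at hP
    rcases Finset.mem_union.1 hP with h | h
    · exact ⟨(hg 0 N P h).1, (hg 0 N P h).2.1, (hg 0 N P h).2.2.1⟩
    · exact ⟨(hg 1 N P h).1, (hg 1 N P h).2.1, (hg 1 N P h).2.2.1⟩
  have hχ : ∀ P : HeightOneSpectrum (𝓞 M), ∃ X : Ideal (𝓞 M) →*₀ ℤ, TRG.Good P → TRG.LamP P X := by
    intro P
    by_cases h : TRG.Good P
    · obtain ⟨X, hX⟩ := TRG.good_exists_lamP D h
      exact ⟨X, fun _ => hX⟩
    · exact ⟨1, fun h1 => absurd h1 h⟩
  choose χ hχ using hχ
  have hmain := set_density (r := a + b) (b := b) hb (by omega) G (TRG.bM D) χ (TRG.aM p) ?_ ?_ ?_ ?_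
  · refine hmain.congr fun N => ?_
    have key : ∀ g : Finset (HeightOneSpectrum (𝓞 M)) → Prop,
        (((G N).powersetCard (a + b)).filter fun S => (S.filter fun P => TRG.bM D P = 1).card = b ∧ g S).card =
        ((gpr D 0 N ∪ gpr D 1 N).powerset.filter fun S => (S ∩ gpr D 0 N).card = a ∧ (S ∩ gpr D 1 N).card = b ∧
          g S).card := by
      intro g
      congr 1
      ext S
      rw [Finset.mem_filter, Finset.mem_filter, Finset.mem_powersetCard, Finset.mem_powerset, and_assoc]
      refine and_congr_right fun hS => ?_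
      have h1 := split_card (fun p hp => (hg 0 N p hp).2.2.2) (fun p hp => (hg 1 N p hp).2.2.2) hS a b
      rw [← and_assoc, ← and_assoc, ← h1]
    have k1 := key fun S => Pool.Agent.TRG.f (TRG.aM p) (TRG.bM D) S ≠ 0
    have k2 := key fun _ => True
    have k3 : (((G N).powersetCard (a + b)).filter fun S => (S.filter fun P => TRG.bM D P = 1).card = b).card =
        ((gpr D 0 N ∪ gpr D 1 N).powerset.filter fun S => (S ∩ gpr D 0 N).card = a ∧
          (S ∩ gpr D 1 N).card = b).card := by
      refine (cfe fun S _ => ?_).trans (k2.trans (cfe fun S _ => ?_))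
      · exact (iff_of_eq (and_true _)).symm
      · exact and_congr_right fun _ => iff_of_eq (and_true _)
    refine congrArg₂ (fun x y : ℝ => x / y) (congrArg Nat.cast ?_) (congrArg Nat.cast ?_)
    · exact (cfe fun S _ => Iff.rfl).trans (k1.trans (cfe fun S _ => Iff.rfl))
    · exact (cfe fun S _ => Iff.rfl).trans (k3.trans (cfe fun S _ => Iff.rfl))
  · intro N P hP
    have h := hGm N P hP
    exact ⟨h.2.1.two, hχ P h.2.1, h.1⟩
  · intro c η hη
    obtain ⟨N0, h0⟩ := many_good D c hη
    refine ⟨N0, fun N hN => (h0 N hN).trans ?_⟩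
    have hsub : gpr D c N ⊆ (G N).filter fun P => TRG.bM D P = c := by
      intro P hP
      rw [Finset.mem_filter]
      refine ⟨?_, (hg c N P hP).2.2.2⟩
      rw [hG]
      have hc : ∀ c : ZMod 2, c = 0 ∨ c = 1 := by
        decide
      rcases hc c with rfl | rfl
      · exact Finset.mem_union_left _ hP
      · exact Finset.mem_union_right _ hP
    exact_mod_cast Finset.card_le_card hsub
  · intro N u hu v hv huv
    have h1 := hGm N u hu
    have h2 := hGm N v hv
    obtain ⟨h3, h4⟩ := (hχ v h2.2.1).at_prime (hp u h1.2.1 h1.2.2) huv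
    unfold TRG.aM
    rw [← h3]
    rcases h4 with h5 | h5
    · have h6 : (if (1 : ℤ) = -1 then (1 : ZMod 2) else 0) = 0 := if_neg (by norm_num)
      rw [h5, h6, if_pos rfl]
    · have h6 : (if (-1 : ℤ) = -1 then (1 : ZMod 2) else 0) = 1 := if_pos rfl
      rw [h5, h6, if_neg one_ne_zero]
  · intro N u hu v hv huv
    have h1 := hGm N u hu
    have h2 := hGm N v hv
    have h3 := TRG.qr_comm D.hodd h1.2.1 h2.2.1 (hp u h1.2.1 h1.2.2) (hp v h2.2.1 h2.2.2) huv
    unfold TRG.aM
    rw [h3]

end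

end TRN
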