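import Pool.Agent.TRN.N10
import Pool.Agent.TRN.N11b

/-! [DEN-N11] the density theorem -/

set_option autoImplicit false

open NumberField IsDedekindDomain Filter Topology
open scoped Classical

namespace XTB

open TRB

section
variable {K : Type} [Field K] [NumberField K]

/-- the bad prime ideals of `E` which do not contain `7` -/
def badSet (E : WeierstrassCurve K) : Set (HeightOneSpectrum (𝓞 K)) :=
  {P | (7 : 𝓞 K) ∉ P.asIdeal ∧ ¬ XTS.GoodReduction E P}

/-- The isomorphism classes over `K` of the good curves `E` over `K` which satisfy `Q`, such that the bad prime ideals `P` of `E` with `7 ∉ P` have norm at most `X`, and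
`r` is a square modulo exactly `a` of them and no square modulo exactly `b` of them. -/
def family (r : 𝓞 K) (a b X : ℕ) (Q : WeierstrassCurve K → Prop) :
    Set (MulAction.orbitRel.Quotient (WeierstrassCurve.VariableChange K) (WeierstrassCurve K)) :=
  {c | ∃ E : WeierstrassCurve K, Quotient.mk _ E = c ∧ GoodCurve E ∧
    (∀ P ∈ badSet E, Ideal.absNorm P.asIdeal ≤ X) ∧ {P ∈ badSet E | edge P r = 0}.ncard = a ∧
    {P ∈ badSet E | edge P r = 1}.ncard = b ∧ Q E}

end

/-- the product of the `1 - 2 ^ (-i)`, `i` odd, `i ≤ n` -/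
noncomputable def oddProduct (n : ℕ) : ℝ := ∏ k ∈ Finset.range ((n + 1) / 2), (1 - 1 / 2 ^ (2 * k + 1))

section
variable {L M : Type} [Field L] [NumberField L] [Field M] [NumberField M] [Algebra L M]
  [IsTotallyReal L]

/-- `bM D P = edge P r` -/
theorem n11_edge (D : TR.Dat L M) {r : 𝓞 M} (hr : r ^ 2 = -7) {P : HeightOneSpectrum (𝓞 M)}
    (hg : TRG.Good P) (h7 : D.rr ∉ P.asIdeal) : edge P r = TRG.bM D P := by
  have h1 : (r - D.rr) * (r + D.rr) = 0 := by
    have h2 := D.rr_sq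
    linear_combination hr - h2
  have h3 : TT.qr P r = TT.qr P D.rr := by
    rcases mul_eq_zero.1 h1 with h4 | h4
    · rw [sub_eq_zero.1 h4]
    · have h5 : r = D.rr * ((-1 : (𝓞 M)ˣ) : 𝓞 M) := by
        rw [eq_neg_of_add_eq_zero_left h4, Units.val_neg, Units.val_one, mul_neg_one]
      rw [h5, TT.qr_mul P hg.two, hg.unit, mul_one]
  have h6 : r ∉ P.asIdeal := by
    intro h7'
    have h8 := (TT.qr_eq_zero P).2 h7'
    rw [h3] at h8
    exact h7 ((TT.qr_eq_zero P).1 h8)
  rw [edge_eq h6, h3]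
  rfl

omit [IsTotallyReal L] in
theorem n11_bM (D : TR.Dat L M) (P : HeightOneSpectrum (𝓞 M)) :
    TRG.bM D P = 0 ∨ TRG.bM D P = 1 := by
  unfold TRG.bM
  split_ifs
  · exact Or.inr rfl
  · exact Or.inl rfl

omit [IsTotallyReal L] in
theorem n11_goodPrime {P : HeightOneSpectrum (𝓞 M)} (hg : TRG.Good P) : GoodPrime P := by
  refine Or.inr (Or.inr (Or.inr fun u => ?_))
  by_contra hcon
  have h1 := hg.unit u
  unfold TT.qr at h1
  rw [if_neg fun h => P.isPrime.ne_top (Ideal.eq_top_of_isUnit_mem _ h u.isUnit), if_neg hcon] at h1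
  norm_num at h1

omit [IsTotallyReal L] in
theorem n11_mem (D : TR.Dat L M) {X : ℕ} {P : HeightOneSpectrum (𝓞 M)} {ε : ZMod 2} :
    P ∈ TRN.gpr D ε X ↔ Ideal.absNorm P.asIdeal ≤ X ∧ TRG.Good P ∧ D.rr ∉ P.asIdeal ∧
      TRG.bM D P = ε := by
  unfold TRN.gpr
  rw [Finset.mem_filter, TRN.mem_prb]

end

section
variable {L : Type} [Field L] [NumberField L] (hL : IsTotallyReal L)
  (h7 : (Ideal.span {(7 : 𝓞 L)}).IsPrime) {M : Type} [Field M] [NumberField M] [Algebra L M]
  (hM : Module.finrank L M = 2) (hodd : Odd (classNumber M)) {r : 𝓞 M} (hr : r ^ 2 = -7)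

include hL h7 hM hodd hr in
/-- the classes of curves correspond to the sets of primes -/
theorem n11_family (D : TR.Dat L M) (a b X : ℕ) (Q : WeierstrassCurve M → Prop)
    (T : Finset (HeightOneSpectrum (𝓞 M)) → Prop)
    (hT : ∀ (S : Finset (HeightOneSpectrum (𝓞 M))) (E : WeierstrassCurve M), GoodCurve E →
      (∀ P, P ∈ S ↔ (7 : 𝓞 M) ∉ P.asIdeal ∧ ¬ XTS.GoodReduction E P) → (Q E ↔ T S)) :
    (family r a b X Q).Finite ∧ (family r a b X Q).ncard =
      ((TRN.gpr D 0 X ∪ TRN.gpr D 1 X).powerset.filter fun S =>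
        (S ∩ TRN.gpr D 0 X).card = a ∧ (S ∩ TRN.gpr D 1 X).card = b ∧ T S).card := by
  have hr' : ∃ r : M, r ^ 2 = -7 := ⟨r, by
    have h1 := congrArg (algebraMap (𝓞 M) M) hr
    rw [map_pow, map_neg, map_ofNat] at h1
    exact h1⟩
  obtain ⟨𝒮, h𝒮⟩ : ∃ 𝒮 : Finset (Finset (HeightOneSpectrum (𝓞 M))), 𝒮 =
      ((TRN.gpr D 0 X ∪ TRN.gpr D 1 X).powerset.filter fun S =>
        (S ∩ TRN.gpr D 0 X).card = a ∧ (S ∩ TRN.gpr D 1 X).card = b ∧ T S) := ⟨_, rfl⟩
  rw [← h𝒮]
  have hmem : ∀ S ∈ 𝒮, ∀ P ∈ S, Ideal.absNorm P.asIdeal ≤ X ∧ TRG.Good P ∧ D.rr ∉ P.asIdeal := by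
    intro S hS P hP
    rw [h𝒮, Finset.mem_filter, Finset.mem_powerset] at hS
    rcases Finset.mem_union.1 (hS.1 hP) with h | h
    · exact ⟨((n11_mem D).1 h).1, ((n11_mem D).1 h).2.1, ((n11_mem D).1 h).2.2.1⟩
    · exact ⟨((n11_mem D).1 h).1, ((n11_mem D).1 h).2.1, ((n11_mem D).1 h).2.2.1⟩
  have hex : ∀ S ∈ 𝒮, ∃ E : WeierstrassCurve M, GoodCurve E ∧
      ∀ P, P ∈ S ↔ (7 : 𝓞 M) ∉ P.asIdeal ∧ ¬ XTS.GoodReduction E P := by
    intro S hS
    refine TRN.exists_curve hL h7 hM hr' hodd fun P hP => ?_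
    obtain ⟨-, h2, h3⟩ := hmem S hS P hP
    exact ⟨h2.two, fun h => h3 ((TTS.n1_rr_iff D P).1 h), n11_goodPrime h2⟩
  have hne : Nonempty (WeierstrassCurve M) := ⟨⟨0, 0, 0, 0, 0⟩⟩
  choose! E hE hbad using hex
  obtain ⟨cl, hcl⟩ : ∃ cl : Finset (HeightOneSpectrum (𝓞 M)) →
      MulAction.orbitRel.Quotient (WeierstrassCurve.VariableChange M) (WeierstrassCurve M),
      ∀ S, cl S = Quotient.mk _ (E S) := ⟨fun S => Quotient.mk _ (E S), fun _ => rfl⟩
  -- the two counts
  have hcount : ∀ (S : Finset (HeightOneSpectrum (𝓞 M))) (E : WeierstrassCurve M) (e : ZMod 2),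
      (∀ P, P ∈ S ↔ (7 : 𝓞 M) ∉ P.asIdeal ∧ ¬ XTS.GoodReduction E P) →
      (∀ P ∈ S, Ideal.absNorm P.asIdeal ≤ X ∧ TRG.Good P ∧ D.rr ∉ P.asIdeal) →
      {P ∈ badSet E | edge P r = e}.ncard = (S ∩ TRN.gpr D e X).card := by
    intro S E e hS hg
    rw [← Set.ncard_coe_finset]
    congr 1
    ext P
    rw [Finset.coe_inter, Set.mem_inter_iff, Finset.mem_coe, Finset.mem_coe, n11_mem]
    constructor
    · rintro ⟨h1, h2⟩
      have h3 : P ∈ S := (hS P).2 h1
      obtain ⟨g1, g2, g3⟩ := hg P h3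
      exact ⟨h3, g1, g2, g3, (n11_edge D hr g2 g3).symm.trans h2⟩
    · rintro ⟨h1, g1, g2, g3, g4⟩
      exact ⟨(hS P).1 h1, (n11_edge D hr g2 g3).trans g4⟩
  have hset : family r a b X Q = ↑(𝒮.image cl) := by
    ext c
    rw [Finset.mem_coe, Finset.mem_image]
    constructor
    · rintro ⟨E', hc, hE', hX, ha, hb, hQE⟩
      obtain ⟨-, ⟨S, p, hS, -⟩, -⟩ := mod_two_sqrt hL h7 hM hr' hodd hE'
      have hg : ∀ P ∈ S, Ideal.absNorm P.asIdeal ≤ X ∧ TRG.Good P ∧ D.rr ∉ P.asIdeal := by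
        intro P hP
        have h1 := (hS P).1 hP
        refine ⟨hX P h1, TRN.n10_good D (fun h2 => h1.2 (hE'.two P h2)) h1.1
          ((hE'.good P h1.1).resolve_left h1.2), TRN.n10_rr D h1.1⟩
      have hS𝒮 : S ∈ 𝒮 := by
        rw [h𝒮, Finset.mem_filter, Finset.mem_powerset]
        refine ⟨fun P hP => ?_, ?_, ?_, (hT S E' hE' hS).1 hQE⟩
        · obtain ⟨g1, g2, g3⟩ := hg P hP
          rw [Finset.mem_union]
          rcases n11_bM D P with h | h
          · exact Or.inl ((n11_mem D).2 ⟨g1, g2, g3, h⟩)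
          · exact Or.inr ((n11_mem D).2 ⟨g1, g2, g3, h⟩)
        · rw [← hcount S E' 0 hS hg]
          exact ha
        · rw [← hcount S E' 1 hS hg]
          exact hb
      refine ⟨S, hS𝒮, ?_⟩
      rw [hcl, ← hc]
      obtain ⟨C, hC⟩ := TRN.iso_of_bad hL h7 hM hr' hodd hE' (hE S hS𝒮) (fun P h7P => by
        have h1 := hS P
        have h2 := hbad S hS𝒮 P
        constructor
        · intro h
          by_contra hn
          exact (h1.1 (h2.2 ⟨h7P, hn⟩)).2 h
        · intro h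
          by_contra hn
          exact (h2.1 (h1.2 ⟨h7P, hn⟩)).2 h)
      apply Quotient.sound
      change E S ∈ MulAction.orbit _ E'
      exact ⟨C, hC.symm⟩
    · rintro ⟨S, hS, rfl⟩
      have hg := hmem S hS
      have hS2 := hS
      rw [h𝒮, Finset.mem_filter, Finset.mem_powerset] at hS2
      refine ⟨E S, (hcl S).symm, hE S hS, fun P hP => (hg P ((hbad S hS P).2 hP)).1, ?_, ?_, ?_⟩
      · rw [hcount S (E S) 0 (hbad S hS) hg]
        exact hS2.2.1
      · rw [hcount S (E S) 1 (hbad S hS) hg]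
        exact hS2.2.2.1
      · exact (hT S (E S) (hE S hS) (hbad S hS)).2 hS2.2.2.2
  have hinj : Set.InjOn cl ↑𝒮 := by
    intro S hS S' hS' h
    rw [Finset.mem_coe] at hS hS'
    rw [hcl, hcl] at h
    have h1 : E S ∈ MulAction.orbit (WeierstrassCurve.VariableChange M) (E S') := Quotient.exact h
    obtain ⟨C, hC⟩ := h1
    have hC' : C • E S' = E S := hC
    ext P
    rw [hbad S hS, hbad S' hS', ← hC', TRN.good_smul]
  rw [hset]
  exact ⟨Finset.finite_toSet _, by
    rw [Set.ncard_coe_finset, Finset.card_image_of_injOn hinj]⟩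

/-- **[DEN]** PROOF. `S ↦` the class of the curve of `exists_curve` is a bijection between the sets `S ⊆ gpr D 0 X ∪ gpr D 1 X` with `a` and `b` elements in the two parts, and `family r a b X True`
(`iso_of_bad`, `good_smul`); `FiniteSha` corresponds to `f ≠ 0` (`mod_two_sqrt` with `laplacian_det`; `bM D P = edge P r`, `r = ± D.rr`). `mean_sets`. The number of the sets is
`C(#gpr 0, a) C(#gpr 1, b) → ∞` (`many_good`, `a + b ≥ 1`). -/
theorem density {L : Type} [Field L] [NumberField L] (hL : IsTotallyReal L)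
    (h7 : (Ideal.span {(7 : 𝓞 L)}).IsPrime) {M : Type} [Field M] [NumberField M] [Algebra L M]
    (hM : Module.finrank L M = 2) (hodd : Odd (classNumber M)) {r : 𝓞 M} (hr : r ^ 2 = -7) (a : ℕ) {b : ℕ} (hb : 0 < b) :
    (∀ X : ℕ, (family r a b X fun _ => True).Finite) ∧
    Tendsto (fun X : ℕ => (family r a b X fun _ => True).ncard) atTop atTop ∧
    Tendsto (fun X : ℕ => ((family r a b X FiniteSha).ncard : ℝ) / ((family r a b X fun _ => True).ncard : ℝ))
      atTop (𝓝 (oddProduct (a + b - if Even b then 2 else 1))) := by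
  have hr' : ∃ r : M, r ^ 2 = -7 := ⟨r, by
    have h1 := congrArg (algebraMap (𝓞 M) M) hr
    rw [map_pow, map_neg, map_ofNat] at h1
    exact h1⟩
  obtain ⟨D0⟩ := Real7.dat h7 hM hr'
  obtain ⟨D, hD⟩ : ∃ D : TR.Dat L M, D = D0.toTR hodd := ⟨_, rfl⟩
  have hex : ∀ P : HeightOneSpectrum (𝓞 M), TRG.Good P → D.rr ∉ P.asIdeal →
      ∃ q : 𝓞 M, TRG.GenP P q := fun P h1 h2 => TRG.exists_genP D h1 h2
  choose! p hp using hex
  have hTrue := fun X => n11_family hL h7 hM hodd hr D a b X (fun _ => True)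
    (fun _ => True) (fun _ _ _ _ => Iff.rfl)
  have hFin := fun X => n11_family hL h7 hM hodd hr D a b X FiniteSha
    (fun S => (∀ P ∈ S, TRG.Good P ∧ D.rr ∉ P.asIdeal) ∧
      Pool.Agent.TRG.f (TRG.aM p) (TRG.bM D) S ≠ 0) (by
      intro S E hE hS
      have hg : ∀ P ∈ S, TRG.Good P ∧ D.rr ∉ P.asIdeal := by
        intro P hP
        have h1 := (hS P).1 hP
        exact ⟨TRN.n10_good D (fun h2 => h1.2 (hE.two P h2)) h1.1
          ((hE.good P h1.1).resolve_left h1.2), TRN.n10_rr D h1.1⟩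
      have hgen : ∀ P ∈ S, TRG.GenP P (p P) := fun P hP => hp P (hg P hP).1 (hg P hP).2
      obtain ⟨-, -, h3⟩ := mod_two_sqrt hL h7 hM hr' hodd hE
      obtain ⟨-, h4⟩ := h3 S p r hS (fun P hP => ⟨(hgen P hP).gen, (hgen P hP).sq⟩) hr
      rw [h4, laplacian_det D (fun P hP => (hg P hP).1) (fun P hP => (hg P hP).2) hgen hgen hr]
      exact ⟨fun h => ⟨hg, h⟩, fun h => h.2⟩)
  have hc1 : ∀ X, (family r a b X fun _ => True).ncard =
      ((TRN.gpr D 0 X ∪ TRN.gpr D 1 X).powerset.filter fun S =>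
        (S ∩ TRN.gpr D 0 X).card = a ∧ (S ∩ TRN.gpr D 1 X).card = b).card := by
    intro X
    rw [(hTrue X).2]
    congr 1
    ext S
    simp only [Finset.mem_filter, and_true]
  have hc2 : ∀ X, (family r a b X FiniteSha).ncard =
      ((TRN.gpr D 0 X ∪ TRN.gpr D 1 X).powerset.filter fun S =>
        (S ∩ TRN.gpr D 0 X).card = a ∧ (S ∩ TRN.gpr D 1 X).card = b ∧
        Pool.Agent.TRG.f (TRG.aM p) (TRG.bM D) S ≠ 0).card := by
    intro X
    rw [(hFin X).2]
    congr 1
    ext S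
    simp only [Finset.mem_filter, Finset.mem_powerset]
    refine and_congr_right fun h1 => and_congr_right fun _ => and_congr_right fun _ => ?_
    refine ⟨fun h => h.2, fun h => ⟨fun P hP => ?_, h⟩⟩
    rcases Finset.mem_union.1 (h1 hP) with h2 | h2
    · exact ⟨((n11_mem D).1 h2).2.1, ((n11_mem D).1 h2).2.2.1⟩
    · exact ⟨((n11_mem D).1 h2).2.1, ((n11_mem D).1 h2).2.2.1⟩
  refine ⟨fun X => (hTrue X).1, ?_, ?_⟩
  · -- the number of the sets
    have hinf : ∀ ε : ZMod 2, Tendsto (fun X : ℕ => (TRN.gpr D ε X).card) atTop atTop := by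
      intro ε
      obtain ⟨N0, hN0⟩ := TRN.many_good D ε (η := 1 / 2) (by norm_num)
      rw [tendsto_atTop]
      intro B
      filter_upwards [eventually_ge_atTop (max N0 (B ^ 2))] with X hX
      have h1 := hN0 X (le_trans (le_max_left _ _) hX)
      have h2 : B ^ 2 ≤ X := le_trans (le_max_right _ _) hX
      have h3 : (B : ℝ) ≤ (X : ℝ) ^ (1 - (1 / 2 : ℝ)) := by
        have h4 : ((B : ℝ) ^ 2) ^ (1 - (1 / 2 : ℝ)) = B := by
          rw [← Real.rpow_natCast, ← Real.rpow_mul (Nat.cast_nonneg _)]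
          norm_num
        rw [← h4]
        apply Real.rpow_le_rpow (by positivity)
        · exact_mod_cast h2
        · norm_num
      exact_mod_cast h3.trans h1
    have hdisj : ∀ X, Disjoint (TRN.gpr D 0 X) (TRN.gpr D 1 X) := by
      intro X
      rw [Finset.disjoint_left]
      intro P h1 h2
      have h3 := ((n11_mem D).1 h1).2.2.2
      rw [((n11_mem D).1 h2).2.2.2] at h3
      exact one_ne_zero h3
    have hev : ∀ᶠ X : ℕ in atTop, (TRN.gpr D 1 X).card - (b - 1) ≤
        (family r a b X fun _ => True).ncard := by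
      filter_upwards [(tendsto_atTop.1 (hinf 0)) a, (tendsto_atTop.1 (hinf 1)) (b - 1)] with X h0 h1
      rw [hc1]
      obtain ⟨A, hA, hAc⟩ := Finset.exists_subset_card_eq h0
      obtain ⟨B, hB, hBc⟩ := Finset.exists_subset_card_eq h1
      have h2 : ((TRN.gpr D 1 X) \ B).card = (TRN.gpr D 1 X).card - (b - 1) := by
        rw [Finset.card_sdiff_of_subset hB, hBc]
      rw [← h2]
      refine Finset.card_le_card_of_injOn (fun P => A ∪ insert P B) ?_ ?_
      · intro P hP
        rw [Finset.mem_coe, Finset.mem_sdiff] at hP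
        rw [Finset.mem_coe, Finset.mem_filter, Finset.mem_powerset]
        have hBP : insert P B ⊆ TRN.gpr D 1 X := Finset.insert_subset hP.1 hB
        refine ⟨Finset.union_subset_union hA hBP, ?_, ?_⟩
        · have h3 : (A ∪ insert P B) ∩ TRN.gpr D 0 X = A := by
            rw [Finset.union_inter_distrib_right, Finset.inter_eq_left.2 hA,
              Finset.disjoint_iff_inter_eq_empty.1
                ((hdisj X).symm.mono_left hBP), Finset.union_empty]
          rw [h3, hAc]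
        · have h3 : (A ∪ insert P B) ∩ TRN.gpr D 1 X = insert P B := by
            rw [Finset.union_inter_distrib_right, Finset.inter_eq_left.2 hBP,
              Finset.disjoint_iff_inter_eq_empty.1 ((hdisj X).mono_left hA), Finset.empty_union]
          rw [h3, Finset.card_insert_of_notMem hP.2, hBc]
          omega
      · intro P hP P' hP' h
        rw [Finset.mem_coe, Finset.mem_sdiff] at hP hP'
        have h3 : P ∈ A ∪ insert P' B := by
          have h4 : A ∪ insert P B = A ∪ insert P' B := h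
          rw [← h4]
          exact Finset.mem_union_right _ (Finset.mem_insert_self P B)
        rcases Finset.mem_union.1 h3 with h4 | h4
        · exact absurd hP.1 (Finset.disjoint_left.1 (hdisj X) (hA h4))
        · rcases Finset.mem_insert.1 h4 with h5 | h5
          · exact h5
          · exact absurd h5 hP.2
    exact tendsto_atTop_mono' atTop hev (tendsto_sub_atTop_nat (b - 1) |>.comp (hinf 1))
  · have h1 := TRN.mean_sets D hp a hb
    have h2 : (fun X : ℕ => ((family r a b X FiniteSha).ncard : ℝ) /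
        ((family r a b X fun _ => True).ncard : ℝ)) = fun N : ℕ =>
      ((((TRN.gpr D 0 N ∪ TRN.gpr D 1 N).powerset.filter fun S => (S ∩ TRN.gpr D 0 N).card = a ∧ (S ∩ TRN.gpr D 1 N).card = b ∧
        Pool.Agent.TRG.f (TRG.aM p) (TRG.bM D) S ≠ 0).card : ℝ) /
      (((TRN.gpr D 0 N ∪ TRN.gpr D 1 N).powerset.filter fun S => (S ∩ TRN.gpr D 0 N).card = a ∧ (S ∩ TRN.gpr D 1 N).card = b).card : ℝ)) := by
      funext X
      rw [hc1, hc2]
    rw [h2]
    exact h1

end

end XTB
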