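import Pool.Agent.TRN.N6
import Pool.Agent.TRN.N8
import Pool.Agent.TRN.N9

/-! [DEN-N12a] the density of the tuples of primes whose graph has an odd number of spanning trees -/

set_option autoImplicit false

open NumberField Ideal IsDedekindDomain Filter Topology
open scoped Classical

namespace TRN

section tuples
variable {P : Type} {r : ℕ}

theorem pi_eq_card (A : Fin r → Finset P) {i j : Fin r} (hij : i ≠ j) :
    ((Fintype.piFinset A).filter fun x => x i = x j).card * (A j).card ≤ (Fintype.piFinset A).card := by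
  rw [← Finset.card_product]
  refine Finset.card_le_card_of_injOn (fun q => Function.update q.1 j q.2) ?_ ?_
  · rintro ⟨x, v⟩ h
    rw [Finset.mem_coe, Finset.mem_product, Finset.mem_filter, Fintype.mem_piFinset] at h
    rw [Finset.mem_coe, Fintype.mem_piFinset]
    intro k
    by_cases hk : k = j
    · subst hk
      simpa using h.2
    · simpa [Function.update_of_ne hk] using h.1.1 k
  · rintro ⟨x, v⟩ h ⟨x', v'⟩ h' he
    rw [Finset.mem_coe, Finset.mem_product, Finset.mem_filter] at h h'
    have he' : Function.update x j v = Function.update x' j v' := he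
    have hv : v = v' := by
      have := congrFun he' j
      simpa using this
    have hx : x = x' := by
      funext k
      by_cases hk : k = j
      · have h1 : x j = x i := h.1.2.symm
        have h2 : x' j = x' i := h'.1.2.symm
        rw [hk, h1, h2]
        have := congrFun he' i
        simpa [Function.update_of_ne hij] using this
      · have := congrFun he' k
        simpa [Function.update_of_ne hk] using this
    rw [hx, hv]

theorem noninj_card (A : Fin r → Finset P) {m : ℝ} (hm : ∀ j, m ≤ ((A j).card : ℝ)) :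
    (((Fintype.piFinset A).filter fun x => ¬ Function.Injective x).card : ℝ) * m ≤
      r * r * ((Fintype.piFinset A).card : ℝ) := by
  have h1 : ((Fintype.piFinset A).filter fun x => ¬ Function.Injective x) ⊆
      (Finset.univ.filter fun q : Fin r × Fin r => q.1 ≠ q.2).biUnion fun q =>
        (Fintype.piFinset A).filter fun x => x q.1 = x q.2 := by
    intro x hx
    rw [Finset.mem_filter] at hx
    obtain ⟨hx1, hx2⟩ := hx
    rw [Function.not_injective_iff] at hx2
    obtain ⟨i, j, h, hij⟩ := hx2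
    rw [Finset.mem_biUnion]
    exact ⟨(i, j), by simpa using hij, by rw [Finset.mem_filter]; exact ⟨hx1, h⟩⟩
  have h2 : (((Fintype.piFinset A).filter fun x => ¬ Function.Injective x).card : ℝ) ≤
      ∑ q ∈ (Finset.univ.filter fun q : Fin r × Fin r => q.1 ≠ q.2),
        (((Fintype.piFinset A).filter fun x => x q.1 = x q.2).card : ℝ) := by
    have h3 := (Finset.card_le_card h1).trans Finset.card_biUnion_le
    exact_mod_cast h3
  have h4 : (((Fintype.piFinset A).filter fun x => ¬ Function.Injective x).card : ℝ) * m ≤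
      ∑ q ∈ (Finset.univ.filter fun q : Fin r × Fin r => q.1 ≠ q.2), ((Fintype.piFinset A).card : ℝ) := by
    by_cases hm0 : 0 ≤ m
    · refine (mul_le_mul_of_nonneg_right h2 hm0).trans ?_
      rw [Finset.sum_mul]
      refine Finset.sum_le_sum fun q hq => ?_
      have h5 := pi_eq_card A (Finset.mem_filter.1 hq).2
      calc (((Fintype.piFinset A).filter fun x => x q.1 = x q.2).card : ℝ) * m
          ≤ (((Fintype.piFinset A).filter fun x => x q.1 = x q.2).card : ℝ) * ((A q.2).card : ℝ) :=
            mul_le_mul_of_nonneg_left (hm _) (Nat.cast_nonneg _)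
        _ ≤ _ := by exact_mod_cast h5
    · refine (mul_nonpos_of_nonneg_of_nonpos (Nat.cast_nonneg _) (not_le.1 hm0).le).trans ?_
      exact Finset.sum_nonneg fun _ _ => Nat.cast_nonneg _
  refine h4.trans ?_
  rw [Finset.sum_const, nsmul_eq_mul]
  refine mul_le_mul_of_nonneg_right ?_ (Nat.cast_nonneg _)
  have h6 : (Finset.univ.filter fun q : Fin r × Fin r => q.1 ≠ q.2).card ≤ r * r := by
    refine (Finset.card_filter_le _ _).trans ?_
    rw [Finset.card_univ, Fintype.card_prod, Fintype.card_fin]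
  exact_mod_cast h6

end tuples

section
variable {K : Type} [Field K] [NumberField K]

theorem edge_bound : ∃ C δ : ℝ, 0 < C ∧ 0 < δ ∧ ∀ X : ℕ, 1 ≤ X →
    ∀ (U T : Finset (HeightOneSpectrum (𝓞 K))) (χ : HeightOneSpectrum (𝓞 K) → (Ideal (𝓞 K) →*₀ ℤ))
      (e : HeightOneSpectrum (𝓞 K) → HeightOneSpectrum (𝓞 K) → ZMod 2),
      (∀ P ∈ U, absNorm P.asIdeal ≤ X) →
      (∀ Q ∈ T, (2 : 𝓞 K) ∉ Q.asIdeal ∧ TRG.LamP Q (χ Q) ∧ absNorm Q.asIdeal ≤ X) →
      (∀ u ∈ U, ∀ v ∈ T, u ≠ v → χ v u.asIdeal = if e u v = 0 then 1 else -1) →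
      ∀ α β : HeightOneSpectrum (𝓞 K) → ℝ, (∀ P, |α P| ≤ 1) → (∀ Q, |β Q| ≤ 1) →
      |∑ u ∈ U, ∑ v ∈ T, α u * β v * (if e u v = 0 then 1 else -1)| ≤ C * (X : ℝ) ^ (2 - δ) + U.card := by
  obtain ⟨C, δ, hC, hδ, h⟩ := bilinear K
  refine ⟨C, δ, hC, hδ, fun X hX U T χ e hU hT he α β hα hβ => ?_⟩
  have h1 := h X hX U T χ hU hT α β hα hβ
  have h2 : ∑ u ∈ U, ∑ v ∈ T, α u * β v * (if e u v = 0 then 1 else -1) =
      ∑ u ∈ U, ∑ v ∈ T, α u * β v * (χ v u.asIdeal : ℝ) +
        ∑ u ∈ U, ∑ v ∈ T, (if u = v then α u * β v * ((if e u v = 0 then 1 else -1) - (χ v u.asIdeal : ℝ)) else 0) := by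
    rw [← Finset.sum_add_distrib]
    refine Finset.sum_congr rfl fun u hu => ?_
    rw [← Finset.sum_add_distrib]
    refine Finset.sum_congr rfl fun v hv => ?_
    by_cases huv : u = v
    · rw [if_pos huv]
      ring
    · rw [if_neg huv, add_zero, he u hu v hv huv]
      split_ifs <;> push_cast <;> ring
  have h3 : |∑ u ∈ U, ∑ v ∈ T, (if u = v then α u * β v *
      ((if e u v = 0 then 1 else -1) - (χ v u.asIdeal : ℝ)) else 0)| ≤ U.card := by
    refine (Finset.abs_sum_le_sum_abs _ _).trans ?_
    have h4 : ∀ u ∈ U, |∑ v ∈ T, (if u = v then α u * β v *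
        ((if e u v = 0 then 1 else -1) - (χ v u.asIdeal : ℝ)) else 0)| ≤ 1 := by
      intro u _
      rw [Finset.sum_ite_eq]
      by_cases hu : u ∈ T
      · rw [if_pos hu]
        have h5 : χ u u.asIdeal = 0 := ((hT u hu).2.1.zero_iff _).2 le_rfl
        rw [h5, Int.cast_zero, sub_zero, abs_mul, abs_mul]
        have h6 : |(if e u u = 0 then 1 else -1 : ℝ)| = 1 := by
          split_ifs <;> norm_num
        rw [h6, mul_one]
        calc |α u| * |β u| ≤ 1 * 1 := mul_le_mul (hα u) (hβ u) (abs_nonneg _) zero_le_one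
          _ = 1 := one_mul 1
      · rw [if_neg hu, abs_zero]
        exact zero_le_one
    refine (Finset.sum_le_sum h4).trans ?_
    rw [Finset.sum_const, nsmul_eq_mul, mul_one]
  rw [h2]
  exact (abs_add_le _ _).trans (add_le_add h1 h3)

/-- a quotient of two sequences which are asymptotic to multiples of a third one -/
theorem ratio_tendsto {a b T ε : ℕ → ℝ} {s : ℝ} (hT : ∀ᶠ N in atTop, 0 < T N) (hε : Tendsto ε atTop (𝓝 0))
    (ha : ∀ᶠ N in atTop, |a N - s * T N| ≤ ε N * T N) (hb : ∀ᶠ N in atTop, |b N - T N| ≤ ε N * T N) :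
    Tendsto (fun N => a N / b N) atTop (𝓝 s) := by
  have h1 : Tendsto (fun N => a N / T N) atTop (𝓝 s) := by
    rw [tendsto_iff_norm_sub_tendsto_zero]
    refine squeeze_zero' (Eventually.of_forall fun _ => norm_nonneg _) ?_ hε
    filter_upwards [hT, ha] with N h0 h
    rw [Real.norm_eq_abs, show a N / T N - s = (a N - s * T N) / T N by field_simp, abs_div, abs_of_pos h0,
      div_le_iff₀ h0]
    exact h
  have h2 : Tendsto (fun N => b N / T N) atTop (𝓝 1) := by
    rw [tendsto_iff_norm_sub_tendsto_zero]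
    refine squeeze_zero' (Eventually.of_forall fun _ => norm_nonneg _) ?_ hε
    filter_upwards [hT, hb] with N h0 h
    rw [Real.norm_eq_abs, show b N / T N - 1 = (b N - T N) / T N by field_simp, abs_div, abs_of_pos h0,
      div_le_iff₀ h0]
    exact h
  have h3 := h1.div h2 one_ne_zero
  rw [div_one] at h3
  refine h3.congr' ?_
  filter_upwards [hT] with N h0
  rw [Pi.div_apply, div_div_div_cancel_right₀ h0.ne']

/-- [DEN-N12a] the density of the tuples -/
theorem tuple_density {r : ℕ} (ρ : Fin r → ZMod 2) (hρ : ρ ≠ 0)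
    (A : Fin r → ℕ → Finset (HeightOneSpectrum (𝓞 K)))
    (χ : HeightOneSpectrum (𝓞 K) → (Ideal (𝓞 K) →*₀ ℤ))
    (e : HeightOneSpectrum (𝓞 K) → HeightOneSpectrum (𝓞 K) → ZMod 2)
    (hA : ∀ i N, ∀ P ∈ A i N, (2 : 𝓞 K) ∉ P.asIdeal ∧ TRG.LamP P (χ P) ∧ absNorm P.asIdeal ≤ N)
    (hmany : ∀ i, ∀ η : ℝ, 0 < η → ∃ N0 : ℕ, ∀ N : ℕ, N0 ≤ N → (N : ℝ) ^ (1 - η) ≤ ((A i N).card : ℝ))
    (he : ∀ i j N, ∀ u ∈ A i N, ∀ v ∈ A j N, u ≠ v → χ v u.asIdeal = if e u v = 0 then 1 else -1) :
    Tendsto (fun N => (((Fintype.piFinset fun i => A i N).filter fun x => Function.Injective x ∧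
        (lapM (fun p => e (x p.1.1) (x p.1.2)) ρ).det ≠ 0).card : ℝ) /
      ((Fintype.piFinset fun i => A i N).filter fun x => Function.Injective x).card) atTop
      (𝓝 (sn (r - if Even (Finset.univ.filter fun i => ρ i = 1).card then 2 else 1))) := by
  obtain ⟨C, δ, hC, hδ, hedge⟩ := edge_bound (K := K)
  set s : ℝ := sn (r - if Even (Finset.univ.filter fun i => ρ i = 1).card then 2 else 1) with hs
  set η : ℝ := min (δ / 4) (1 / 2) with hη
  have hη0 : 0 < η := lt_min (by linarith) (by norm_num)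
  have hη1 : η ≤ δ / 4 := min_le_left _ _
  have hη2 : η ≤ 1 / 2 := min_le_right _ _
  set m : ℕ → ℝ := fun N => (N : ℝ) ^ (1 - η) with hm
  set k : ℕ := Fintype.card (Pairs r) with hk
  set ε1 : ℕ → ℝ := fun N => C * (N : ℝ) ^ (2 - δ) / (m N * m N) + 1 / m N with hε1
  set ε : ℕ → ℝ := fun N => 2 ^ k * ε1 N + r * r / m N with hε
  set T : ℕ → ℝ := fun N => ((Fintype.piFinset fun i => A i N).card : ℝ) with hT
  have hTprod : ∀ N, T N = ∏ i, ((A i N).card : ℝ) := by
    intro N
    rw [hT]
    simp only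
    rw [Fintype.card_piFinset]
    push_cast
    rfl
  -- the sizes
  have hbig : ∀ᶠ N : ℕ in atTop, 1 ≤ N ∧ ∀ i, m N ≤ ((A i N).card : ℝ) := by
    refine (eventually_ge_atTop 1).and ?_
    rw [eventually_all]
    intro i
    obtain ⟨N0, hN0⟩ := hmany i η hη0
    filter_upwards [eventually_ge_atTop N0] with N hN
    exact hN0 N hN
  have hmpos : ∀ N : ℕ, 1 ≤ N → 0 < m N := fun N hN => Real.rpow_pos_of_pos (by exact_mod_cast hN) _
  have hTpos : ∀ᶠ N in atTop, 0 < T N := by
    filter_upwards [hbig] with N hN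
    rw [hTprod]
    exact Finset.prod_pos fun i _ => (hmpos N hN.1).trans_le (hN.2 i)
  -- the errors tend to zero
  have hcast : Tendsto (fun N : ℕ => (N : ℝ)) atTop atTop := tendsto_natCast_atTop_atTop
  have hinv : Tendsto (fun N : ℕ => 1 / m N) atTop (𝓝 0) := by
    have h1 : Tendsto (fun x : ℝ => x ^ (-(1 - η))) atTop (𝓝 0) := tendsto_rpow_neg_atTop (by linarith)
    refine (h1.comp hcast).congr fun N => ?_
    rw [Function.comp_apply, Real.rpow_neg (Nat.cast_nonneg N), one_div]
  have hfirst : Tendsto (fun N : ℕ => C * (N : ℝ) ^ (2 - δ) / (m N * m N)) atTop (𝓝 0) := by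
    have h1 : Tendsto (fun x : ℝ => C * x ^ (-(δ - 2 * η))) atTop (𝓝 (C * 0)) :=
      (tendsto_rpow_neg_atTop (by linarith)).const_mul C
    rw [mul_zero] at h1
    refine (h1.comp hcast).congr' ?_
    filter_upwards [eventually_ge_atTop 1] with N hN
    have hN0 : (0 : ℝ) < N := by exact_mod_cast hN
    rw [Function.comp_apply, mul_div_assoc, hm]
    simp only
    rw [← Real.rpow_add hN0, ← Real.rpow_sub hN0]
    congr 2
    ring
  have hε1t : Tendsto ε1 atTop (𝓝 0) := by
    have h1 := hfirst.add hinv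
    rw [add_zero] at h1
    exact h1
  have hεt : Tendsto ε atTop (𝓝 0) := by
    have h1 := (hε1t.const_mul ((2 : ℝ) ^ k)).add (hinv.const_mul ((r : ℝ) * r))
    rw [mul_zero, mul_zero, add_zero] at h1
    refine h1.congr fun N => ?_
    rw [hε]
    simp only
    ring
  have hnon : ∀ᶠ N in atTop, (((Fintype.piFinset fun i => A i N).filter fun x => ¬ Function.Injective x).card : ℝ) ≤
      r * r / m N * T N := by
    filter_upwards [hbig] with N hN
    have h1 := noninj_card (fun i => A i N) hN.2
    rw [div_mul_eq_mul_div, le_div_iff₀ (hmpos N hN.1)]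
    exact h1
  have hε1pos : ∀ N : ℕ, 1 ≤ N → 0 ≤ ε1 N := by
    intro N hN
    have := hmpos N hN
    have h2 : 0 ≤ (N : ℝ) ^ (2 - δ) := Real.rpow_nonneg (Nat.cast_nonneg N) _
    positivity
  -- the determinant
  set Φ : (Pairs r → ZMod 2) → ℝ := fun z => if (lapM z ρ).det ≠ 0 then 1 else 0 with hΦ
  have hΦ1 : ∀ z, |Φ z| ≤ 1 := by
    intro z
    rw [hΦ]
    simp only
    split_ifs <;> norm_num
  have hmean : (∑ z : Pairs r → ZMod 2, Φ z) / 2 ^ Fintype.card (Pairs r) = s := by
    have h1 : ∑ z : Pairs r → ZMod 2, Φ z =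
        ((Finset.univ.filter fun z : Pairs r → ZMod 2 => (lapM z ρ).det ≠ 0).card : ℝ) := by
      rw [Finset.card_filter]
      push_cast
      rfl
    rw [h1, count_lap ρ hρ, mul_div_cancel_right₀]
    positivity
  refine ratio_tendsto (T := T) (ε := ε) hTpos hεt ?_ ?_
  · filter_upwards [hbig, hnon] with N hN hno
    have h1 := fourier_mean (fun i => A i N) e (ε := ε1 N) (hε1pos N hN.1) (fun i j hij α β hα hβ => ?_) Φ hΦ1
    · rw [hmean, ← hTprod] at h1
      have h2 : (((Fintype.piFinset fun i => A i N).filter fun x => Function.Injective x ∧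
          (lapM (fun p => e (x p.1.1) (x p.1.2)) ρ).det ≠ 0).card : ℝ) +
          (((Fintype.piFinset fun i => A i N).filter fun x => ¬ Function.Injective x ∧
          (lapM (fun p => e (x p.1.1) (x p.1.2)) ρ).det ≠ 0).card : ℝ) =
          ∑ x ∈ Fintype.piFinset fun i => A i N, Φ (fun p => e (x p.1.1) (x p.1.2)) := by
        rw [Finset.card_filter, Finset.card_filter]
        push_cast
        rw [← Finset.sum_add_distrib]
        refine Finset.sum_congr rfl fun x _ => ?_
        rw [hΦ]
        simp only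
        by_cases hx : Function.Injective x
        · simp [hx]
        · simp [hx]
      have h3 : (((Fintype.piFinset fun i => A i N).filter fun x => ¬ Function.Injective x ∧
          (lapM (fun p => e (x p.1.1) (x p.1.2)) ρ).det ≠ 0).card : ℝ) ≤ r * r / m N * T N := by
        refine le_trans ?_ hno
        have h4 : ((Fintype.piFinset fun i => A i N).filter fun x => ¬ Function.Injective x ∧
          (lapM (fun p => e (x p.1.1) (x p.1.2)) ρ).det ≠ 0) ⊆
          ((Fintype.piFinset fun i => A i N).filter fun x => ¬ Function.Injective x) := by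
          intro x hx
          rw [Finset.mem_filter] at hx ⊢
          exact ⟨hx.1, hx.2.1⟩
        exact_mod_cast Finset.card_le_card h4
      have h5 : (0 : ℝ) ≤ (((Fintype.piFinset fun i => A i N).filter fun x => ¬ Function.Injective x ∧
          (lapM (fun p => e (x p.1.1) (x p.1.2)) ρ).det ≠ 0).card : ℝ) := Nat.cast_nonneg _
      rw [← h2] at h1
      rw [abs_le] at h1 ⊢
      rw [hε]
      simp only
      constructor
      · nlinarith [h1.1, h1.2, h3, h5]
      · nlinarith [h1.1, h1.2, h3, h5]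
    · have h6 := hedge N hN.1 (A i N) (A j N) χ e (fun P hP => (hA i N P hP).2.2) (fun Q hQ => hA j N Q hQ)
        (fun u hu v hv huv => he i j N u hu v hv huv) α β hα hβ
      refine h6.trans ?_
      have hmp := hmpos N hN.1
      have hi := hN.2 i
      have hj := hN.2 j
      have h7 : C * (N : ℝ) ^ (2 - δ) ≤ C * (N : ℝ) ^ (2 - δ) / (m N * m N) * ((A i N).card : ℝ) * ((A j N).card : ℝ) := by
        have h8 : 0 ≤ C * (N : ℝ) ^ (2 - δ) / (m N * m N) := by
          have h9 : 0 ≤ (N : ℝ) ^ (2 - δ) := Real.rpow_nonneg (Nat.cast_nonneg N) _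
          positivity
        calc C * (N : ℝ) ^ (2 - δ) = C * (N : ℝ) ^ (2 - δ) / (m N * m N) * (m N * m N) := by
              rw [div_mul_cancel₀]
              positivity
          _ ≤ C * (N : ℝ) ^ (2 - δ) / (m N * m N) * (((A i N).card : ℝ) * ((A j N).card : ℝ)) :=
              mul_le_mul_of_nonneg_left (mul_le_mul hi hj hmp.le (Nat.cast_nonneg _)) h8
          _ = _ := by ring
      have h10 : ((A i N).card : ℝ) ≤ 1 / m N * ((A i N).card : ℝ) * ((A j N).card : ℝ) := by
        have h11 : 1 ≤ 1 / m N * ((A j N).card : ℝ) := by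
          rw [one_div, ← div_eq_inv_mul, one_le_div hmp]
          exact hj
        calc ((A i N).card : ℝ) = ((A i N).card : ℝ) * 1 := (mul_one _).symm
          _ ≤ ((A i N).card : ℝ) * (1 / m N * ((A j N).card : ℝ)) :=
              mul_le_mul_of_nonneg_left h11 (Nat.cast_nonneg _)
          _ = _ := by ring
      rw [hε1]
      simp only
      linarith
  · filter_upwards [hbig, hnon] with N hN hno
    have h2 : (((Fintype.piFinset fun i => A i N).filter fun x => Function.Injective x).card : ℝ) +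
        (((Fintype.piFinset fun i => A i N).filter fun x => ¬ Function.Injective x).card : ℝ) = T N := by
      rw [hT]
      simp only
      exact_mod_cast Finset.card_filter_add_card_filter_not _
    have h5 : (0 : ℝ) ≤ (((Fintype.piFinset fun i => A i N).filter fun x => ¬ Function.Injective x).card : ℝ) :=
      Nat.cast_nonneg _
    have h6 : 0 ≤ 2 ^ k * ε1 N * T N := by
      have := hε1pos N hN.1
      have h7 : 0 ≤ T N := Nat.cast_nonneg _
      positivity
    rw [abs_le, hε]
    simp only
    constructor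
    · nlinarith
    · nlinarith

end

end TRN
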