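import Pool.Agent.TRN.N12a
import Pool.Agent.TRG.Graph

/-! [DEN-N12b] the density of the sets of primes whose graph has an odd number of spanning trees -/

set_option autoImplicit false

open NumberField Ideal IsDedekindDomain Filter Topology
open scoped Classical

namespace TRN

theorem sn_pos (n : ℕ) : 0 < sn n := by
  unfold sn
  refine Finset.prod_pos fun k _ => ?_
  rw [sub_pos, div_lt_one (by positivity)]
  exact one_lt_pow₀ one_lt_two (Nat.succ_ne_zero _)

/-- the cardinality of a filtered set does not depend on the decidability -/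
theorem cfe {α : Type} {s : Finset α} {p q : α → Prop} {ip : DecidablePred p} {iq : DecidablePred q}
    (h : ∀ x ∈ s, (p x ↔ q x)) : (@Finset.filter α p ip s).card = (@Finset.filter α q iq s).card :=
  congrArg Finset.card (@Finset.filter_congr α p q ip iq s h)

section tuples
variable {P : Type} {r : ℕ}

/-- the number of the enumerations of a set -/
theorem fiber_card {G S : Finset P} (hS : S ⊆ G) (hr : S.card = r) :
    ((Fintype.piFinset fun _ : Fin r => G).filter fun x => Function.Injective x ∧ Finset.univ.image x = S).card =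
      r.factorial := by
  have h1 : Fintype.card (Fin r ↪ S) = r.factorial := by
    rw [Fintype.card_embedding_eq, Fintype.card_coe, hr, Fintype.card_fin, Nat.descFactorial_self]
  rw [← h1, ← Finset.card_univ]
  symm
  refine Finset.card_bij (fun f _ => fun k => (f k : P)) ?_ ?_ ?_
  · intro f _
    rw [Finset.mem_filter, Fintype.mem_piFinset]
    have hinj : Function.Injective fun k => (f k : P) := fun i j h => f.injective (Subtype.ext h)
    refine ⟨fun k => hS (f k).2, hinj, ?_⟩
    refine Finset.eq_of_subset_of_card_le ?_ ?_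
    · intro p hp
      obtain ⟨k, -, rfl⟩ := Finset.mem_image.1 hp
      exact (f k).2
    · rw [Finset.card_image_of_injective _ hinj, Finset.card_univ, Fintype.card_fin, hr]
  · intro f _ g _ h
    ext k
    exact congrFun h k
  · intro x hx
    rw [Finset.mem_filter] at hx
    obtain ⟨-, hinj, him⟩ := hx
    have hmem : ∀ k, x k ∈ S := fun k => by
      rw [← him]
      exact Finset.mem_image_of_mem _ (Finset.mem_univ _)
    exact ⟨⟨fun k => ⟨x k, hmem k⟩, fun i j h => hinj (congrArg Subtype.val h)⟩, Finset.mem_univ _, rfl⟩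

/-- tuples and sets -/
theorem tuples_sets (G : Finset P) (g : Finset P → Prop) :
    ((Fintype.piFinset fun _ : Fin r => G).filter fun x => Function.Injective x ∧ g (Finset.univ.image x)).card =
      r.factorial * ((G.powersetCard r).filter g).card := by
  rw [Finset.card_eq_sum_card_fiberwise (f := fun x : Fin r → P => Finset.univ.image x)
    (t := (G.powersetCard r).filter g)]
  · rw [mul_comm, ← smul_eq_mul, ← Finset.sum_const]
    refine Finset.sum_congr rfl fun S hS => ?_
    rw [Finset.mem_filter, Finset.mem_powersetCard] at hS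
    rw [← fiber_card hS.1.1 hS.1.2, Finset.filter_filter]
    congr 1
    refine Finset.filter_congr fun x _ => ?_
    constructor
    · rintro ⟨⟨h1, -⟩, h3⟩
      exact ⟨h1, h3⟩
    · rintro ⟨h1, h3⟩
      exact ⟨⟨h1, by rw [h3]; exact hS.2⟩, h3⟩
  · intro x hx
    rw [Finset.mem_coe, Finset.mem_filter, Fintype.mem_piFinset] at hx
    rw [Finset.mem_coe, Finset.mem_filter, Finset.mem_powersetCard]
    refine ⟨⟨?_, ?_⟩, hx.2.2⟩
    · intro p hp
      obtain ⟨k, -, rfl⟩ := Finset.mem_image.1 hp
      exact hx.1 k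
    · rw [Finset.card_image_of_injective _ hx.2.1, Finset.card_univ, Fintype.card_fin]

theorem ones_image {x : Fin r → P} (hx : Function.Injective x) (rho : P → ZMod 2) :
    ((Finset.univ.image x).filter fun p => rho p = 1).card = (Finset.univ.filter fun i => rho (x i) = 1).card := by
  rw [Finset.filter_image, Finset.card_image_of_injective _ hx]

/-- the tuples and their patterns -/
theorem tuples_patterns (G : Finset P) (rho : P → ZMod 2) (b : ℕ) (g : (Fin r → P) → Prop) :
    ((Fintype.piFinset fun _ : Fin r => G).filter fun x => (Finset.univ.filter fun i => rho (x i) = 1).card = b ∧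
      g x).card =
      ∑ ρ ∈ (Finset.univ.filter fun ρ : Fin r → ZMod 2 => (Finset.univ.filter fun i => ρ i = 1).card = b),
        ((Fintype.piFinset fun i => G.filter fun p => rho p = ρ i).filter fun x => g x).card := by
  rw [Finset.card_eq_sum_card_fiberwise (f := fun x : Fin r → P => fun i => rho (x i))
    (t := (Finset.univ.filter fun ρ : Fin r → ZMod 2 => (Finset.univ.filter fun i => ρ i = 1).card = b))]
  · refine Finset.sum_congr rfl fun ρ hρ => ?_
    congr 1
    ext x
    simp only [Finset.mem_filter, Fintype.mem_piFinset, Finset.mem_univ, true_and] at hρ ⊢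
    constructor
    · rintro ⟨⟨h1, -, h3⟩, h4⟩
      exact ⟨fun i => ⟨h1 i, congrFun h4 i⟩, h3⟩
    · rintro ⟨h1, h3⟩
      have h4 : (fun i => rho (x i)) = ρ := funext fun i => (h1 i).2
      refine ⟨⟨fun i => (h1 i).1, ?_, h3⟩, h4⟩
      rw [← hρ, ← h4]
  · intro x hx
    rw [Finset.mem_coe, Finset.mem_filter] at hx
    rw [Finset.mem_coe, Finset.mem_filter]
    exact ⟨Finset.mem_univ _, hx.2.1⟩

/-- the determinant of a set and of an enumeration -/
theorem det_image (a : P → P → ZMod 2) (rho : P → ZMod 2) {x : Fin r → P} (hx : Function.Injective x)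
    (hsym : ∀ i j, a (x i) (x j) = a (x j) (x i)) :
    Pool.Agent.TRG.f a rho (Finset.univ.image x) = (lapM (fun p => a (x p.1.2) (x p.1.1)) fun i => rho (x i)).det := by
  have hmem : ∀ k, x k ∈ Finset.univ.image x := fun k => Finset.mem_image_of_mem _ (Finset.mem_univ _)
  set σ : Fin r ≃ (Finset.univ.image x : Finset P) := Equiv.ofBijective (fun k => ⟨x k, hmem k⟩) (by
    constructor
    · intro i j h
      exact hx (congrArg Subtype.val h)
    · rintro ⟨p, hp⟩
      obtain ⟨k, -, rfl⟩ := Finset.mem_image.1 hp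
      exact ⟨k, rfl⟩) with hσ
  unfold Pool.Agent.TRG.f
  rw [← Matrix.det_submatrix_equiv_self σ]
  congr 1
  funext i j
  have hs : ∀ i j, i ≠ j → symm (fun p : Pairs r => a (x p.1.2) (x p.1.1)) i j = a (x i) (x j) := by
    intro i j hij
    unfold symm
    by_cases h1 : i < j
    · rw [dif_pos h1, hsym]
    · rw [dif_neg h1, dif_pos (lt_of_le_of_ne (not_lt.1 h1) hij.symm)]
  rw [Matrix.submatrix_apply]
  unfold Pool.Agent.TRG.lap lapM
  have h0 : ∀ k, ((σ k : (Finset.univ.image x : Finset P)) : P) = x k := fun k => rfl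
  by_cases hij : i = j
  · rw [if_pos (congrArg σ hij), if_pos hij, h0]
    congr 1
    have h2 : (Finset.univ.image x).erase (x i) = (Finset.univ.erase i).image x := by
      rw [Finset.image_erase hx]
    rw [h2, Finset.sum_image fun k _ l _ h => hx h]
    refine Finset.sum_congr rfl fun k hk => ?_
    rw [hs i k (Finset.ne_of_mem_erase hk).symm]
  · rw [if_neg fun h => hij (σ.injective h), if_neg hij, h0, h0, hs i j hij]

end tuples

/-- sums of sequences with the same limit of the quotients -/
theorem ratio_sum {ι : Type} (R : Finset ι) (hR : R.Nonempty) {a b : ι → ℕ → ℝ} {s : ℝ} (hs : 0 < s)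
    (hb : ∀ i N, 0 ≤ b i N) (ha : ∀ i N, 0 ≤ a i N) (hab : ∀ i N, a i N ≤ b i N)
    (h : ∀ i ∈ R, Tendsto (fun N => a i N / b i N) atTop (𝓝 s)) :
    Tendsto (fun N => (∑ i ∈ R, a i N) / ∑ i ∈ R, b i N) atTop (𝓝 s) := by
  have hpos : ∀ i ∈ R, ∀ᶠ N in atTop, 0 < b i N := by
    intro i hi
    filter_upwards [(h i hi).eventually (lt_mem_nhds hs)] with N hN
    refine (hb i N).lt_of_ne fun h0 => ?_
    rw [← h0, div_zero] at hN
    exact lt_irrefl _ hN
  have hε : Tendsto (fun N => ∑ i ∈ R, |a i N / b i N - s|) atTop (𝓝 0) := by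
    have h1 : Tendsto (fun N => ∑ i ∈ R, |a i N / b i N - s|) atTop (𝓝 (∑ i ∈ R, |s - s|)) :=
      tendsto_finsetSum _ fun i hi => ((h i hi).sub_const s).abs
    simpa using h1
  obtain ⟨i0, hi0⟩ := hR
  refine ratio_tendsto (T := fun N => ∑ i ∈ R, b i N) (ε := fun N => ∑ i ∈ R, |a i N / b i N - s|) ?_ hε ?_ ?_
  · filter_upwards [hpos i0 hi0] with N hN
    exact hN.trans_le (Finset.single_le_sum (f := fun i => b i N) (fun i _ => hb i N) hi0)
  · refine Eventually.of_forall fun N => ?_
    rw [Finset.mul_sum, ← Finset.sum_sub_distrib]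
    refine (Finset.abs_sum_le_sum_abs _ _).trans ?_
    rw [Finset.mul_sum]
    refine Finset.sum_le_sum fun i hi => ?_
    have h2 : |a i N - s * b i N| = |a i N / b i N - s| * b i N := by
      rcases (hb i N).eq_or_lt with h0 | h0
      · have h3 : a i N = 0 := le_antisymm (h0 ▸ hab i N) (ha i N)
        rw [← h0, h3]
        simp
      · rw [← abs_of_pos h0, ← abs_mul, abs_of_pos h0, sub_mul, div_mul_cancel₀ _ h0.ne']
    rw [h2]
    exact mul_le_mul_of_nonneg_right
      (Finset.single_le_sum (f := fun i => |a i N / b i N - s|) (fun i _ => abs_nonneg _) hi) (hb i N)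
  · refine Eventually.of_forall fun N => ?_
    rw [sub_self, abs_zero]
    exact mul_nonneg (Finset.sum_nonneg fun i _ => abs_nonneg _) (Finset.sum_nonneg fun i _ => hb i N)

section
variable {K : Type} [Field K] [NumberField K]

/-- [DEN-N12b] THE DENSITY OF THE SETS of `r` primes (exactly `b ≥ 1` of them joined to the root) whose graph has an odd number of
spanning trees -/
theorem set_density {r b : ℕ} (hb : 1 ≤ b) (hbr : b ≤ r) (G : ℕ → Finset (HeightOneSpectrum (𝓞 K)))
    (rho : HeightOneSpectrum (𝓞 K) → ZMod 2) (χ : HeightOneSpectrum (𝓞 K) → (Ideal (𝓞 K) →*₀ ℤ))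
    (a : HeightOneSpectrum (𝓞 K) → HeightOneSpectrum (𝓞 K) → ZMod 2)
    (hG : ∀ N, ∀ P ∈ G N, (2 : 𝓞 K) ∉ P.asIdeal ∧ TRG.LamP P (χ P) ∧ absNorm P.asIdeal ≤ N)
    (hmany : ∀ c : ZMod 2, ∀ η : ℝ, 0 < η → ∃ N0 : ℕ, ∀ N : ℕ, N0 ≤ N →
      (N : ℝ) ^ (1 - η) ≤ (((G N).filter fun P => rho P = c).card : ℝ))
    (ha : ∀ N, ∀ u ∈ G N, ∀ v ∈ G N, u ≠ v → χ v u.asIdeal = if a v u = 0 then 1 else -1)
    (hsym : ∀ N, ∀ u ∈ G N, ∀ v ∈ G N, u ≠ v → a u v = a v u) :
    Tendsto (fun N => ((((G N).powersetCard r).filter fun S => (S.filter fun P => rho P = 1).card = b ∧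
        Pool.Agent.TRG.f a rho S ≠ 0).card : ℝ) /
      (((G N).powersetCard r).filter fun S => (S.filter fun P => rho P = 1).card = b).card) atTop
      (𝓝 (sn (r - if Even b then 2 else 1))) := by
  set R : Finset (Fin r → ZMod 2) :=
    Finset.univ.filter fun ρ : Fin r → ZMod 2 => (Finset.univ.filter fun i => ρ i = 1).card = b with hR
  have hRne : R.Nonempty := by
    refine ⟨fun i => if (i : ℕ) < b then 1 else 0, ?_⟩
    rw [hR, Finset.mem_filter]
    refine ⟨Finset.mem_univ _, ?_⟩
    have h1 : (Finset.univ.filter fun i : Fin r => (if (i : ℕ) < b then (1 : ZMod 2) else 0) = 1) =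
        Finset.univ.filter fun i : Fin r => (i : ℕ) < b := by
      refine Finset.filter_congr fun i _ => ?_
      by_cases h : (i : ℕ) < b
      · simp [h]
      · simp [h]
    rw [h1, Fin.card_filter_val_lt, min_eq_right hbr]
  -- the tuples of a given pattern
  set num : (Fin r → ZMod 2) → ℕ → ℝ := fun ρ N =>
    (((Fintype.piFinset fun i => (G N).filter fun p => rho p = ρ i).filter fun x => Function.Injective x ∧
      Pool.Agent.TRG.f a rho (Finset.univ.image x) ≠ 0).card : ℝ) with hnum
  set den : (Fin r → ZMod 2) → ℕ → ℝ := fun ρ N =>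
    (((Fintype.piFinset fun i => (G N).filter fun p => rho p = ρ i).filter fun x => Function.Injective x).card : ℝ)
    with hden
  have hlim : ∀ ρ ∈ R, Tendsto (fun N => num ρ N / den ρ N) atTop (𝓝 (sn (r - if Even b then 2 else 1))) := by
    intro ρ hρ
    rw [hR, Finset.mem_filter] at hρ
    have hρ0 : ρ ≠ 0 := by
      rintro rfl
      have h1 := hρ.2
      have h2 : (Finset.univ.filter fun i : Fin r => (0 : Fin r → ZMod 2) i = 1) = ∅ := by
        rw [Finset.filter_eq_empty_iff]
        intro i _
        rw [Pi.zero_apply]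
        decide
      rw [h2, Finset.card_empty] at h1
      omega
    have h3 := tuple_density ρ hρ0 (fun i N => (G N).filter fun p => rho p = ρ i) χ (fun u v => a v u)
      (fun i N P hP => hG N P (Finset.mem_filter.1 hP).1) (fun i η hη => hmany (ρ i) η hη)
      (fun i j N u hu v hv huv => ha N u (Finset.mem_filter.1 hu).1 v (Finset.mem_filter.1 hv).1 huv)
    rw [hρ.2] at h3
    refine h3.congr fun N => ?_
    rw [hnum, hden]
    simp only
    congr 3
    ext x
    rw [Finset.mem_filter, Finset.mem_filter, Fintype.mem_piFinset]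
    refine and_congr_right fun hx => and_congr_right fun hinj => ?_
    have hpat : (fun i => rho (x i)) = ρ := funext fun i => (Finset.mem_filter.1 (hx i)).2
    rw [det_image a rho hinj, hpat]
    intro i j
    by_cases hij : x i = x j
    · rw [hij]
    · exact hsym N _ (Finset.mem_filter.1 (hx i)).1 _ (Finset.mem_filter.1 (hx j)).1 hij
  have hle : ∀ ρ N, num ρ N ≤ den ρ N := by
    intro ρ N
    rw [hnum, hden]
    simp only
    have h4 : ((Fintype.piFinset fun i => (G N).filter fun p => rho p = ρ i).filter fun x => Function.Injective x ∧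
      Pool.Agent.TRG.f a rho (Finset.univ.image x) ≠ 0) ⊆
      ((Fintype.piFinset fun i => (G N).filter fun p => rho p = ρ i).filter fun x => Function.Injective x) := by
      intro x hx
      rw [Finset.mem_filter] at hx ⊢
      exact ⟨hx.1, hx.2.1⟩
    exact_mod_cast Finset.card_le_card h4
  have h5 := ratio_sum R hRne (sn_pos _) (fun ρ N => Nat.cast_nonneg _) (fun ρ N => Nat.cast_nonneg _) hle hlim
  refine h5.congr fun N => ?_
  have key : ∀ (g : Finset (HeightOneSpectrum (𝓞 K)) → Prop) (nm : (Fin r → ZMod 2) → ℝ) (c : ℝ),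
      (∀ ρ, nm ρ = (((Fintype.piFinset fun i => (G N).filter fun p => rho p = ρ i).filter fun x =>
        Function.Injective x ∧ g (Finset.univ.image x)).card : ℝ)) →
      c = ((((G N).powersetCard r).filter fun S => (S.filter fun P => rho P = 1).card = b ∧ g S).card : ℝ) →
      ∑ ρ ∈ R, nm ρ = r.factorial * c := by
    intro g nm c hnm hc
    have h6 := tuples_sets (r := r) (G N) fun S => (S.filter fun P => rho P = 1).card = b ∧ g S
    have h7 := tuples_patterns (r := r) (G N) rho b fun x => Function.Injective x ∧ g (Finset.univ.image x)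
    rw [← hR] at h7
    have h9 := h7.symm.trans ((cfe fun x _ => by
      constructor
      · rintro ⟨h1, h2, h3⟩
        exact ⟨h2, by rw [ones_image h2]; exact h1, h3⟩
      · rintro ⟨h2, h1, h3⟩
        exact ⟨by rw [← ones_image h2]; exact h1, h2, h3⟩).trans h6)
    have h10 := congrArg (Nat.cast : ℕ → ℝ) h9
    rw [Nat.cast_mul, Nat.cast_sum] at h10
    have h11 : ∑ ρ ∈ R, nm ρ = ∑ ρ ∈ R, ((((Fintype.piFinset fun i => (G N).filter fun p => rho p = ρ i).filter fun x =>
        Function.Injective x ∧ g (Finset.univ.image x)).card : ℕ) : ℝ) :=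
      Finset.sum_congr rfl fun ρ _ => hnm ρ
    rw [h11, hc]
    refine Eq.trans ?_ (h10.trans ?_)
    · exact Finset.sum_congr rfl fun ρ _ => congrArg Nat.cast (cfe fun x _ => Iff.rfl)
    · exact congrArg (fun z : ℝ => (r.factorial : ℝ) * z) (congrArg Nat.cast (cfe fun x _ => Iff.rfl))
  have k1 : ∑ ρ ∈ R, num ρ N = r.factorial * ((((G N).powersetCard r).filter fun S =>
      (S.filter fun P => rho P = 1).card = b ∧ Pool.Agent.TRG.f a rho S ≠ 0).card : ℝ) := by
    refine key (fun S => Pool.Agent.TRG.f a rho S ≠ 0) _ _ (fun ρ => ?_) ?_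
    · exact congrArg Nat.cast (cfe fun x _ => Iff.rfl)
    · exact congrArg Nat.cast (cfe fun x _ => Iff.rfl)
  have k2 : ∑ ρ ∈ R, den ρ N = r.factorial * ((((G N).powersetCard r).filter fun S =>
      (S.filter fun P => rho P = 1).card = b).card : ℝ) := by
    refine key (fun S => True) _ _ (fun ρ => ?_) ?_
    · exact congrArg Nat.cast (cfe fun x _ => (iff_of_eq (and_true _)).symm)
    · exact congrArg Nat.cast (cfe fun x _ => (iff_of_eq (and_true _)).symm)
  rw [k1, k2, mul_div_mul_left]
  exact_mod_cast Nat.factorial_ne_zero r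

end

end TRN
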